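import Pool.Agent.PKT.Targets
import Pool.Agent.PKT.BSE3
import Pool.Agent.PKS.BSE
import Pool.Agent.PKD.RedLem

/-! The residues of a point of the base, with the residues of the integral coordinates
(copy of `PKS.p_BSE` and `PKT.p_BSE3` with one more conclusion). -/

set_option autoImplicit false
set_option maxHeartbeats 4000000

namespace PKQ

open MvPolynomial RD PKD PKS PKS.BSE_ PKT PKT.BSE3_

/-- `PKS.T_BSE` with the residues of the integral coordinates -/
def T_BSE4 : Prop := ∀ (Ω k : Type) [Field Ω] [Field k] (v : AbsoluteValue Ω ℝ) (r : Ω → k),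
  Red v r → ∀ (ϖ : ℝ → Ω), ϖ 1 = 1 →
  ∀ (d n : ℕ) (W : Fin n → Finset (Fin d)) (ρ : Fin n → ℕ)
    (b : Fin n → ℕ → MvPolynomial (Fin d) Ω),
    (∀ j l, l < ρ j → (b j l).totalDegree ≤ ρ j - l ∧ (b j l).vars ⊆ W j ∧
      ∀ t, v ((b j l).coeff t) ≤ 1) →
  ∀ (x : Fin d → Ω) (s : Fin n → Ω), OnBase ρ b x s →
    (∀ m, 1 < v (x m) → v (ϖ (v (x m))) = v (x m)) →
  ∃ (T : Typ d) (x' : Fin d → k) (s' : Fin n → k), Tok T ∧ OnBase ρ (bt r ρ b W T) x' s' ∧
    (∀ V Y m, T V = some Y → m ∈ Y → x' m ≠ 0) ∧ (∀ m, v (x m) ≤ 1 → x' m = r (x m)) ∧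
    ∀ (V : Finset (Fin d)) (M : ℝ), IsSz v x V M → ∀ (D : ℕ) (c : MonS d n D → Ω),
      (∀ α, v (c α) ≤ 1) → (∀ α t, c α ≠ 0 → (α.1 t : ℕ) ≠ 0 → Al W V t) →
      v ((∑ α, c α * ∏ j, Sum.elim x s j ^ (α.1 j : ℕ)) / ϖ M ^ D) ≤ 1 ∧
      r ((∑ α, c α * ∏ j, Sum.elim x s j ^ (α.1 j : ℕ)) / ϖ M ^ D) =
        ∑ α, r (c α) * eval (Sum.elim x' s') (ut k W T V α)

theorem p_BSE4 (hSIZ : PKS.T_SIZ) : T_BSE4 := by
  intro Ω k _ _ v r hr ϖ hϖ1 d n W ρ b hb x s hbase hϖ
  classical
  choose Mx hMx using sz_exists v x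
  have hM1 : ∀ V, 1 ≤ Mx V := fun V => (hMx V).1
  have hMle : ∀ V, ∀ m ∈ V, v (x m) ≤ Mx V := fun V => (hMx V).2.1
  have hϖM : ∀ V, v (ϖ (Mx V)) = Mx V := by
    intro V
    rcases (hMx V).2.2 with h | ⟨m, _, h⟩
    · rw [h, hϖ1, v.map_one]
    · by_cases h1 : Mx V = 1
      · rw [h1, hϖ1, v.map_one]
      · rw [← h]
        apply hϖ
        rw [h]
        exact lt_of_le_of_ne (hM1 V) (Ne.symm h1)
  have hϖ0 : ∀ V, ϖ (Mx V) ≠ 0 := by
    intro V h
    have h1 := hϖM V
    rw [h, v.map_zero] at h1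
    have := hM1 V
    linarith
  have hMpos : ∀ V, 0 < Mx V := fun V => zero_lt_one.trans_le (hM1 V)
  have hsW : ∀ j, v (s j) ≤ Mx (W j) := fun j =>
    (hSIZ Ω v hr.na d n W ρ b hb x s hbase (W j) (Mx (W j)) (hMx (W j))).1 j
      (Finset.Subset.refl _)
  -- the type
  set T : Typ d := fun V => if Mx V = 1 then none else
    some (V.filter (fun m => v (x m) = Mx V)) with hT
  have hTnone : ∀ V, Mx V = 1 → T V = none := fun V h => by rw [hT]; simp only [if_pos h]
  have hTsome : ∀ V, Mx V ≠ 1 → T V = some (V.filter (fun m => v (x m) = Mx V)) := fun V h => by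
    rw [hT]; simp only [if_neg h]
  set x' : Fin d → k := fun m => if v (x m) ≤ 1 then r (x m) else r (x m / ϖ (v (x m))) with hx'
  set s' : Fin n → k := fun j => r (s j / ϖ (Mx (W j))) with hs'
  -- residues of the coordinates
  have F2 : ∀ V, ∀ m ∈ V, v (x m / ϖ (Mx V)) ≤ 1 ∧
      r (x m / ϖ (Mx V)) = if (Mx V = 1 ∨ v (x m) = Mx V) then x' m else 0 := by
    intro V m hm
    have hle : v (x m / ϖ (Mx V)) ≤ 1 := by
      rw [map_div₀, hϖM, div_le_one (hMpos V)]
      exact hMle V m hm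
    refine ⟨hle, ?_⟩
    by_cases h1 : Mx V = 1
    · rw [if_pos (Or.inl h1), h1, hϖ1, div_one, hx']
      simp only
      rw [if_pos (by rw [← h1]; exact hMle V m hm)]
    · by_cases h2 : v (x m) = Mx V
      · rw [if_pos (Or.inr h2), hx']
        simp only
        rw [if_neg, h2]
        rw [h2]
        intro h3
        exact h1 (le_antisymm h3 (hM1 V))
      · rw [if_neg (by tauto), hr.ker _ hle, map_div₀, hϖM, div_lt_one (hMpos V)]
        exact lt_of_le_of_ne (hMle V m hm) h2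
  have F3 : ∀ V j, W j ⊆ V → v (s j / ϖ (Mx V)) ≤ 1 ∧
      r (s j / ϖ (Mx V)) = if (Mx V = 1 ∨ Mx (W j) = Mx V) then s' j else 0 := by
    intro V j hj
    have hWV : Mx (W j) ≤ Mx V := sz_mono (hMx _) (hMx _) hj
    have hle : v (s j / ϖ (Mx V)) ≤ 1 := by
      rw [map_div₀, hϖM, div_le_one (hMpos V)]
      exact (hsW j).trans hWV
    refine ⟨hle, ?_⟩
    by_cases h2 : Mx (W j) = Mx V
    · rw [if_pos (Or.inr h2), hs']
      simp only
      rw [h2]
    · by_cases h1 : Mx V = 1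
      · exfalso
        apply h2
        rw [h1] at hWV ⊢
        exact le_antisymm hWV (hM1 _)
      · rw [if_neg (by tauto), hr.ker _ hle, map_div₀, hϖM, div_lt_one (hMpos V)]
        exact (hsW j).trans_lt (lt_of_le_of_ne hWV h2)
  have F4 : ∀ V j, W j ⊆ V → Mx V ≠ 1 →
      (Mx (W j) = Mx V ↔ ¬ Disjoint (W j) (V.filter (fun m => v (x m) = Mx V))) := by
    intro V j hj h1
    constructor
    · intro h2 hd
      rcases (hMx (W j)).2.2 with h3 | ⟨m, hm, h3⟩
      · exact h1 (h2.symm.trans h3)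
      · exact Finset.disjoint_left.mp hd hm
          (Finset.mem_filter.mpr ⟨hj hm, h3.trans h2⟩)
    · intro hd
      rw [Finset.not_disjoint_iff] at hd
      obtain ⟨m, hm, hm2⟩ := hd
      apply le_antisymm (sz_mono (hMx _) (hMx _) hj)
      rw [← (Finset.mem_filter.mp hm2).2]
      exact hMle _ m hm
  set z : Fin d ⊕ Fin n → Ω := Sum.elim x s with hz
  set z' : Fin d ⊕ Fin n → k := Sum.elim x' s' with hz'
  have F5 : ∀ V t, Al W V t → v (z t / ϖ (Mx V)) ≤ 1 ∧ r (z t / ϖ (Mx V)) =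
      if (Mx V = 1 ∨ Sum.elim (fun m => m ∈ V.filter (fun m => v (x m) = Mx V))
        (fun j => ¬ Disjoint (W j) (V.filter (fun m => v (x m) = Mx V))) t) then z' t else 0 := by
    rintro V (m | j) hAl
    · have hm : m ∈ V := hAl
      obtain ⟨h1, h2⟩ := F2 V m hm
      refine ⟨h1, ?_⟩
      show r (x m / ϖ (Mx V)) = _
      rw [h2]
      simp only [Sum.elim_inl, Finset.mem_filter, hm, true_and, hz']
    · have hj : W j ⊆ V := hAl
      obtain ⟨h1, h2⟩ := F3 V j hj
      refine ⟨h1, ?_⟩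
      show r (s j / ϖ (Mx V)) = _
      rw [h2]
      simp only [Sum.elim_inr, hz']
      by_cases h3 : Mx V = 1
      · rw [if_pos (Or.inl h3), if_pos (Or.inl h3)]
      · simp only [h3, false_or]
        by_cases h4 : Mx (W j) = Mx V
        · rw [if_pos h4, if_pos ((F4 V j hj h3).mp h4)]
        · rw [if_neg h4, if_neg (fun h5 => h4 ((F4 V j hj h3).mpr h5))]
  -- polynomials in the coordinates `x m`, `m ∈ V`
  have F6 : ∀ V (q : MvPolynomial (Fin d) Ω) (e : ℕ), q.vars ⊆ V → q.totalDegree ≤ e →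
      (∀ t, v (q.coeff t) ≤ 1) → v ((ϖ (Mx V) ^ e)⁻¹ * eval x q) ≤ 1 ∧
      r ((ϖ (Mx V) ^ e)⁻¹ * eval x q) = eval x' (match T V with
        | none => rdP r q
        | some Y => mask Y (rdT r e q)) := by
    intro V q e hV hdeg hco
    have hxV : eval x q = eval (fun m => if m ∈ V then x m else 0) q :=
      eval_congr' q _ _ (fun m hm => by rw [if_pos (hV hm)])
    by_cases h1 : Mx V = 1
    · rw [hTnone V h1, h1, hϖ1, one_pow, inv_one, one_mul, hxV]
      have hle : ∀ m, v (if m ∈ V then x m else 0) ≤ 1 := by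
        intro m
        split_ifs with hm
        · rw [← h1]
          exact hMle V m hm
        · rw [v.map_zero]
          exact zero_le_one
      obtain ⟨h2, h3⟩ := rdP_eval hr q hco (fun m => if m ∈ V then x m else 0) hle
      refine ⟨h2, ?_⟩
      rw [h3]
      refine eval_congr' _ _ _ (fun m hm => ?_)
      have hmV : m ∈ V := hV (vars_rdP hr q hm)
      have h4 := (F2 V m hmV).2
      rw [if_pos (Or.inl h1), h1, hϖ1, div_one] at h4
      simp only [if_pos hmV]
      exact h4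
    · rw [hTsome V h1, hxV]
      have hlt : 1 < v (ϖ (Mx V)) := by
        rw [hϖM]
        exact lt_of_le_of_ne (hM1 V) (Ne.symm h1)
      have hle : ∀ m, v ((if m ∈ V then x m else 0) / ϖ (Mx V)) ≤ 1 := by
        intro m
        split_ifs with hm
        · exact (F2 V m hm).1
        · rw [zero_div, v.map_zero]
          exact zero_le_one
      obtain ⟨h2, h3⟩ := rdT_eval hr q hco e hdeg (ϖ (Mx V)) hlt
        (fun m => (if m ∈ V then x m else 0) / ϖ (Mx V)) hle
      have he : (fun m => ϖ (Mx V) * ((if m ∈ V then x m else 0) / ϖ (Mx V))) =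
          fun m => if m ∈ V then x m else 0 := by
        funext m
        rw [mul_div_cancel₀ _ (hϖ0 V)]
      rw [he] at h2 h3
      refine ⟨h2, ?_⟩
      rw [h3]
      symm
      apply eval_mask
      · intro m hm
        have hm' := Finset.mem_filter.mp hm
        simp only [if_pos hm'.1]
        rw [(F2 V m hm'.1).2, if_pos (Or.inr hm'.2)]
      · intro m hm
        by_cases hmV : m ∈ V
        · simp only [if_pos hmV]
          rw [(F2 V m hmV).2, if_neg]
          rintro (h4 | h4)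
          · exact h1 h4
          · exact hm (Finset.mem_filter.mpr ⟨hmV, h4⟩)
        · simp only [if_neg hmV]
          rw [zero_div, hr.zero]
  refine ⟨T, x', s', ?_, ?_, ?_, fun m hm => by rw [hx']; simp only; rw [if_pos hm], ?_⟩
  · intro V Y hY
    by_cases h1 : Mx V = 1
    · rw [hTnone V h1] at hY
      exact absurd hY (by simp)
    · rw [hTsome V h1] at hY
      have hY' : V.filter (fun m => v (x m) = Mx V) = Y := Option.some.inj hY
      rw [← hY']
      refine ⟨?_, Finset.filter_subset _ _⟩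
      rcases (hMx V).2.2 with h | ⟨m, hm, h⟩
      · exact absurd h h1
      · exact ⟨m, Finset.mem_filter.mpr ⟨hm, h⟩⟩
  · intro j
    have h1 := hbase j
    set P : Ω := ϖ (Mx (W j)) with hP
    have hP0 : P ≠ 0 := hϖ0 (W j)
    have hcoef : ∀ l, l < ρ j → v ((P ^ (ρ j - l))⁻¹ * eval x (b j l)) ≤ 1 ∧
        r ((P ^ (ρ j - l))⁻¹ * eval x (b j l)) = eval x' (bt r ρ b W T j l) := by
      intro l hl
      obtain ⟨h2, h3, h4⟩ := hb j l hl
      have := F6 (W j) (b j l) (ρ j - l) h3 h2 h4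
      unfold bt
      exact this
    have hs1 : v (s j / P) ≤ 1 := (F3 (W j) j (Finset.Subset.refl _)).1
    have h2 : (s j / P) ^ ρ j + ∑ l ∈ Finset.range (ρ j),
        ((P ^ (ρ j - l))⁻¹ * eval x (b j l)) * (s j / P) ^ l = 0 := by
      have h3 : P ^ ρ j * ((s j / P) ^ ρ j + ∑ l ∈ Finset.range (ρ j),
          ((P ^ (ρ j - l))⁻¹ * eval x (b j l)) * (s j / P) ^ l) = 0 := by
        rw [← h1, mul_add, Finset.mul_sum, div_pow, mul_div_cancel₀ _ (pow_ne_zero _ hP0)]
        congr 1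
        refine Finset.sum_congr rfl fun l hl => ?_
        rw [Finset.mem_range] at hl
        have h4 : P ^ ρ j = P ^ (ρ j - l) * P ^ l := by
          rw [← pow_add, Nat.sub_add_cancel hl.le]
        rw [h4, div_pow]
        field_simp
      exact (mul_eq_zero.1 h3).resolve_left (pow_ne_zero _ hP0)
    have h5 : ∀ l ∈ Finset.range (ρ j),
        v (((P ^ (ρ j - l))⁻¹ * eval x (b j l)) * (s j / P) ^ l) ≤ 1 := by
      intro l hl
      rw [v.map_mul, v.map_pow]
      exact mul_le_one₀ (hcoef l (Finset.mem_range.1 hl)).1 (by positivity)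
        (pow_le_one₀ (v.nonneg _) hs1)
    have h6 := congrArg r h2
    rw [hr.zero, hr.add _ _ (by rw [v.map_pow]; exact pow_le_one₀ (v.nonneg _) hs1)
      (na_sum hr.na _ _ _ zero_le_one h5), hr.pow hs1, hr.sum _ _ h5] at h6
    rw [← h6]
    congr 1
    refine Finset.sum_congr rfl fun l hl => ?_
    have hl' := Finset.mem_range.1 hl
    rw [hr.mul _ _ (hcoef l hl').1 (by rw [v.map_pow]; exact pow_le_one₀ (v.nonneg _) hs1),
      (hcoef l hl').2, hr.pow hs1]
  · intro V Y m hY hm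
    by_cases h1 : Mx V = 1
    · rw [hTnone V h1] at hY
      exact absurd hY (by simp)
    · rw [hTsome V h1] at hY
      have hY' : V.filter (fun m => v (x m) = Mx V) = Y := Option.some.inj hY
      rw [← hY'] at hm
      have hm' := Finset.mem_filter.mp hm
      have h2 := F2 V m hm'.1
      rw [if_pos (Or.inr hm'.2)] at h2
      rw [← h2.2]
      intro h0
      have h3 := (hr.ker _ h2.1).1 h0
      rw [map_div₀, hϖM, hm'.2, div_self (hMpos V).ne'] at h3
      exact lt_irrefl _ h3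
  · intro V M hM D c hc hAl
    have hMe : M = Mx V := sz_unique hM (hMx V)
    rw [hMe]
    set P : Ω := ϖ (Mx V) with hP
    have hP0 : P ≠ 0 := hϖ0 V
    have hvP : v P = Mx V := hϖM V
    have hP1 : 1 ≤ v P := by rw [hvP]; exact hM1 V
    have hinv : ∀ e : ℕ, v ((P ^ e)⁻¹) ≤ 1 := by
      intro e
      rw [map_inv₀, v.map_pow]
      exact inv_le_one_of_one_le₀ (one_le_pow₀ hP1)
    have key : ∀ α : MonS d n D, v ((c α * ∏ j, z j ^ (α.1 j : ℕ)) / P ^ D) ≤ 1 ∧
        r ((c α * ∏ j, z j ^ (α.1 j : ℕ)) / P ^ D) = r (c α) * eval z' (ut k W T V α) := by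
      intro α
      by_cases hcα : c α = 0
      · rw [hcα]
        simp only [zero_mul, zero_div, v.map_zero, hr.zero]
        exact ⟨zero_le_one, trivial⟩
      have hAlα : ∀ t, (α.1 t : ℕ) ≠ 0 → Al W V t := fun t ht => hAl α t hcα ht
      have hpow : ∀ t, v ((z t / P) ^ (α.1 t : ℕ)) ≤ 1 := by
        intro t
        by_cases ht : (α.1 t : ℕ) = 0
        · rw [ht, pow_zero, v.map_one]
        · rw [v.map_pow]
          exact pow_le_one₀ (v.nonneg _) (F5 V t (hAlα t ht)).1
      have hprod : v (∏ t, (z t / P) ^ (α.1 t : ℕ)) ≤ 1 := na_prod_le _ _ fun t _ => hpow t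
      have he : (c α * ∏ j, z j ^ (α.1 j : ℕ)) / P ^ D =
          c α * ((P ^ (D - ∑ j, (α.1 j : ℕ)))⁻¹ * ∏ t, (z t / P) ^ (α.1 t : ℕ)) := by
        have h1 : ∏ t, (z t / P) ^ (α.1 t : ℕ) =
            (∏ j, z j ^ (α.1 j : ℕ)) / P ^ (∑ j, (α.1 j : ℕ)) := by
          simp only [div_pow, Finset.prod_div_distrib, Finset.prod_pow_eq_pow_sum]
        have h2 : P ^ D = P ^ (D - ∑ j, (α.1 j : ℕ)) * P ^ (∑ j, (α.1 j : ℕ)) := by
          rw [← pow_add, Nat.sub_add_cancel α.2]
        rw [h1, h2]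
        field_simp
      have hin : v ((P ^ (D - ∑ j, (α.1 j : ℕ)))⁻¹ * ∏ t, (z t / P) ^ (α.1 t : ℕ)) ≤ 1 := by
        rw [v.map_mul]
        exact mul_le_one₀ (hinv _) (v.nonneg _) hprod
      rw [he]
      refine ⟨by rw [v.map_mul]; exact mul_le_one₀ (hc α) (v.nonneg _) hin, ?_⟩
      rw [hr.mul _ _ (hc α) hin]
      congr 1
      rw [hr.mul _ _ (hinv _) hprod, hr.prod _ _ fun t _ => hpow t]
      have hum : eval z' (um k α) = ∏ t, z' t ^ (α.1 t : ℕ) := by
        rw [um, map_prod]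
        exact Finset.prod_congr rfl fun t _ => by rw [map_pow, eval_X]
      by_cases h1 : Mx V = 1
      · have hut : ut k W T V α = um k α := by
          unfold ut
          rw [hTnone V h1]
        rw [hut, hum]
        have hPone : P = 1 := by rw [hP, h1, hϖ1]
        rw [hPone, one_pow, inv_one, hr.one, one_mul]
        refine Finset.prod_congr rfl fun t _ => ?_
        by_cases ht : (α.1 t : ℕ) = 0
        · rw [ht, pow_zero, pow_zero, hr.one]
        · have h2 := F5 V t (hAlα t ht)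
          rw [← hP, hPone, if_pos (Or.inl h1)] at h2
          rw [hr.pow h2.1, h2.2]
      · have hut : ut k W T V α = if ∑ j, (α.1 j : ℕ) = D ∧
            ∀ t, (α.1 t : ℕ) ≠ 0 → Sum.elim (fun m => m ∈ V.filter (fun m => v (x m) = Mx V))
              (fun j => ¬ Disjoint (W j) (V.filter (fun m => v (x m) = Mx V))) t
            then um k α else 0 := by
          unfold ut
          rw [hTsome V h1]
        rw [hut]
        have hPlt : 1 < v P := by
          rw [hvP]
          exact lt_of_le_of_ne (hM1 V) (Ne.symm h1)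
        by_cases hD : ∑ j, (α.1 j : ℕ) = D
        · by_cases htop : ∀ t, (α.1 t : ℕ) ≠ 0 →
              Sum.elim (fun m => m ∈ V.filter (fun m => v (x m) = Mx V))
              (fun j => ¬ Disjoint (W j) (V.filter (fun m => v (x m) = Mx V))) t
          · rw [if_pos ⟨hD, htop⟩, hum, hD, Nat.sub_self, pow_zero, inv_one, hr.one, one_mul]
            refine Finset.prod_congr rfl fun t _ => ?_
            by_cases ht : (α.1 t : ℕ) = 0
            · rw [ht, pow_zero, pow_zero, hr.one]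
            · have h2 := F5 V t (hAlα t ht)
              rw [if_pos (Or.inr (htop t ht))] at h2
              rw [hr.pow h2.1, h2.2]
          · rw [if_neg (fun h => htop h.2), map_zero]
            push Not at htop
            obtain ⟨t, ht, htt⟩ := htop
            have h2 := F5 V t (hAlα t ht)
            have h3 : ¬ (Mx V = 1 ∨ Sum.elim (fun m => m ∈ V.filter (fun m => v (x m) = Mx V))
                (fun j => ¬ Disjoint (W j) (V.filter (fun m => v (x m) = Mx V))) t) := by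
              rintro (h | h)
              · exact h1 h
              · exact htt h
            rw [if_neg h3] at h2
            have h4 : ∏ t, r ((z t / P) ^ (α.1 t : ℕ)) = 0 := by
              apply Finset.prod_eq_zero (Finset.mem_univ t)
              rw [hr.pow h2.1, h2.2, zero_pow ht]
            rw [h4, mul_zero]
        · rw [if_neg (fun h => hD h.1), map_zero]
          have h3 : r ((P ^ (D - ∑ j, (α.1 j : ℕ)))⁻¹) = 0 := by
            rw [hr.ker _ (hinv _), map_inv₀, v.map_pow]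
            have h4 : ∑ j, (α.1 j : ℕ) ≤ D := α.2
            exact inv_lt_one_of_one_lt₀ (one_lt_pow₀ hPlt (by omega))
          rw [h3, zero_mul]
    have hsum : (∑ α, c α * ∏ j, z j ^ (α.1 j : ℕ)) / P ^ D =
        ∑ α, (c α * ∏ j, z j ^ (α.1 j : ℕ)) / P ^ D := by
      rw [Finset.sum_div]
    rw [hsum]
    refine ⟨na_sum hr.na _ _ _ zero_le_one fun α _ => (key α).1, ?_⟩
    rw [hr.sum _ _ fun α _ => (key α).1]
    exact Finset.sum_congr rfl fun α _ => (key α).2

/-- `PKT.T_BSE3` with the residues of the integral coordinates -/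
def T_BSQ : Prop := ∀ (Ω k : Type) [Field Ω] [Field k] (v : AbsoluteValue Ω ℝ) (r : Ω → k),
  Red v r → ∀ (ϖ : ℝ → Ω), ϖ 1 = 1 →
  ∀ (d n : ℕ) (W : Fin n → Finset (Fin d)) (ρ : Fin n → ℕ)
    (b : Fin n → ℕ → MvPolynomial (Fin d) Ω),
    (∀ j l, l < ρ j → (b j l).totalDegree ≤ ρ j - l ∧ (b j l).vars ⊆ W j ∧
      ∀ t, v ((b j l).coeff t) ≤ 1) →
  ∀ (x : Fin d → Ω) (s : Fin n → Ω), OnBase ρ b x s →
    (∀ m, 1 < v (x m) → v (ϖ (v (x m))) = v (x m)) →
  ∃ (T : Typ d) (x' : Fin d → k) (s' : Fin n → k), Tok T ∧ OnBase ρ (bt r ρ b W T) x' s' ∧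
    (∀ V Y m, T V = some Y → m ∈ Y → x' m ≠ 0) ∧ (∀ m, v (x m) ≤ 1 → x' m = r (x m)) ∧
    ∀ (V : Finset (Fin d)) (M : ℝ), IsSz v x V M →
      ∀ (D : ℕ) (f : MvPolynomial (Fin d ⊕ Fin n) Ω), f.totalDegree ≤ D →
      (∀ t ∈ f.vars, Al W V t) → (∀ α, v (f.coeff α) ≤ 1) →
      v (eval (Sum.elim x s) f / ϖ M ^ D) ≤ 1 ∧
      r (eval (Sum.elim x s) f / ϖ M ^ D) =
        ∑ α ∈ f.support, r (f.coeff α) * eval (Sum.elim x' s') (utf k W T V D α)

theorem p_BSQ (h : T_BSE4) : T_BSQ := by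
  classical
  intro Ω k _ _ v r hr ϖ hϖ d n W ρ b hb x s hs hϖx
  obtain ⟨T, x', s', hT, hB, hY, hint, hmain⟩ := h Ω k v r hr ϖ hϖ d n W ρ b hb x s hs hϖx
  refine ⟨T, x', s', hT, hB, hY, hint, ?_⟩
  intro V M hM D f hf hvars hcoef
  have h1 := hmain V M hM D (fun α => f.coeff (ex α)) (fun α => hcoef _) (by
    intro α t hα ht
    refine hvars t ?_
    rw [mem_vars_iff_mem_support]
    refine ⟨ex α, mem_support_iff.2 hα, ?_⟩
    rw [Finsupp.mem_support_iff, ex_apply]
    exact ht)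
  have hev : eval (Sum.elim x s) f =
      ∑ α : MonS d n D, f.coeff (ex α) * ∏ j, Sum.elim x s j ^ (α.1 j : ℕ) := by
    rw [eval_eq', sum_mon f hf (fun t => f.coeff t * ∏ j, Sum.elim x s j ^ t j)]
    · rfl
    · intro t ht
      rw [notMem_support_iff.1 ht, zero_mul]
  rw [hev]
  refine ⟨h1.1, h1.2.trans ?_⟩
  rw [sum_mon f hf (fun t => r (f.coeff t) * eval (Sum.elim x' s') (utf k W T V D t))]
  · refine Finset.sum_congr rfl fun α _ => ?_
    rw [ut_eq]
  · intro t ht
    rw [notMem_support_iff.1 ht]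
    have hr0 : r 0 = 0 := (hr.ker 0 (by simp)).2 (by simp)
    rw [hr0, zero_mul]

end PKQ
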