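import Pool.Agent.PKT.Targets
import Pool.Agent.PKE.ELQ

/-! Elimination when the coordinates in `Q` vanish. -/

set_option autoImplicit false
set_option maxHeartbeats 4000000

namespace PKQ

open MvPolynomial RD PKD PKS PKT

/-- elimination when the coordinates in `Q` vanish -/
def T_ELQ3 : Prop := ∀ (d n D : ℕ) (ρ : Fin n → ℕ) (ι C : Type) [Fintype ι] [DecidableEq ι]
  [Fintype C] [DecidableEq C] (q : C → ι) (α0 : ι → C), (∀ i, q (α0 i) = i) →
  ∀ Q : Finset (Fin d),
  ∃ L : ℕ, ∀ (k : Type) [Field k] (b : Fin n → ℕ → MvPolynomial (Fin d) k)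
    (u : C → MvPolynomial (Fin d ⊕ Fin n) k) (S J : Finset ι) (τ : ι → ι → k),
    (∀ j l, l < ρ j → (b j l).totalDegree ≤ ρ j - l) → (∀ α, (u α).totalDegree ≤ D) →
    Disjoint S J → d + 1 ≤ S.card + J.card + Q.card →
    ∃ Φ : MvPolynomial C k, Φ ≠ 0 ∧ Φ.totalDegree ≤ L ∧
      ∀ c p s h, Sys3 ρ b q u α0 S J τ c p s h → (∀ m ∈ Q, p m = 0) → eval c Φ = 0

theorem p_ELQ3 (h : T_ELI3) : T_ELQ3 := by
  intro d n D ρ ι C _ _ _ _ q α0 hα Q
  have hQd : Q.card ≤ d := by
    have := Finset.card_le_univ Q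
    simpa using this
  have hE : Fintype.card {i : Fin d // i ∉ Q} = d - Q.card := by
    rw [Fintype.card_subtype_compl]
    simp
  let E : {i : Fin d // i ∉ Q} ≃ Fin (d - Q.card) := Fintype.equivFinOfCardEq hE
  obtain ⟨L, hL⟩ := h (d - Q.card) n D ρ ι C q α0 hα
  refine ⟨L, fun k _ b u S J τ hb hu hSJ hcard => ?_⟩
  let φ : Fin d → MvPolynomial (Fin (d - Q.card)) k :=
    fun i => if h : i ∈ Q then 0 else X (E ⟨i, h⟩)
  let ψ : Fin d ⊕ Fin n → MvPolynomial (Fin (d - Q.card) ⊕ Fin n) k :=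
    Sum.elim (fun i => rename Sum.inl (φ i)) (fun j => X (Sum.inr j))
  have hφ : ∀ i, (φ i).totalDegree ≤ 1 := by
    intro i
    by_cases hi : i ∈ Q
    · simp [φ, hi]
    · simp [φ, hi, totalDegree_X]
  have hψ : ∀ i, (ψ i).totalDegree ≤ 1 := by
    rintro (i | j)
    · exact (totalDegree_rename_le _ _).trans (hφ i)
    · simp [ψ, totalDegree_X]
  obtain ⟨Φ', h0, hd', hΦ⟩ := hL k (fun j l => aeval φ (b j l)) (fun α => aeval ψ (u α))
    S J τ
    (fun j l hl => (PKE.ELQ_.deg_aeval φ hφ _).trans (hb j l hl))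
    (fun α => (PKE.ELQ_.deg_aeval ψ hψ _).trans (hu α)) hSJ (by omega)
  refine ⟨Φ', h0, hd', ?_⟩
  intro c p s hh hsys hpQ
  obtain ⟨s1, s2, s3, s4, s5⟩ := hsys
  have e1 : ∀ i, eval (fun m => p (E.symm m).1) (φ i) = p i := by
    intro i
    by_cases hi : i ∈ Q
    · simp [φ, hi, hpQ i hi]
    · simp [φ, hi]
  have e2 : ∀ q : MvPolynomial (Fin d) k, eval (fun m => p (E.symm m).1) (aeval φ q) =
      eval p q := by
    intro q
    rw [PKE.ELQ_.eval_aev]
    simp only [e1]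
  have e3 : ∀ q : MvPolynomial (Fin d ⊕ Fin n) k,
      eval (Sum.elim (fun m => p (E.symm m).1) s) (aeval ψ q) = eval (Sum.elim p s) q := by
    intro q
    rw [PKE.ELQ_.eval_aev]
    congr 2
    funext x
    rcases x with i | j
    · show eval _ (rename Sum.inl (φ i)) = _
      rw [eval_rename, Sum.elim_comp_inl, e1]
      rfl
    · simp [ψ]
  refine hΦ c (fun m => p (E.symm m).1) s hh ⟨?_, ?_, ?_, ?_, s5⟩
  · intro j
    have := s1 j
    simp only [e2]
    exact this
  · intro i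
    simp only [e3]; exact s2 i
  · intro i hi
    have := s3 i hi
    simp only [e3]
    exact this
  · intro i hi
    have := s4 i hi
    simp only [e3]
    exact this

end PKQ
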