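import Pool.Agent.PKT.CRE3
import Pool.Agent.PKQ.STPQ
import Pool.Agent.PKQ.ELQ3
import Pool.Agent.PKS.CRE2
import Pool.Agent.PKE.CR2

/-! The arithmetic core. -/

set_option autoImplicit false
set_option maxHeartbeats 4000000

namespace PKQ

open MvPolynomial RD PKD PKS PKT PKT.CRT_

/-- the arithmetic core, uniformly in the curves and the fixed parts of the abscissas -/
def T_CRQ : Prop := ∀ (K Ω : Type) [Field K] [NumberField K] [Field Ω] [CharZero Ω]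
  [IsAlgClosed Ω] [DecidableEq Ω] [Algebra K Ω] [Algebra.IsAlgebraic K Ω]
  (m : ℕ) (g : Fin m → ℕ) (d n : ℕ) (w : Fin m → ℕ) (D : (Σ k, Fin (g k)) → ℕ),
  (∀ i, w i.1 ≤ D i) → PKE.DegC g d (Module.finrank ℚ K) →
  ∀ (om : Module.Basis (Fin (Module.finrank ℚ K)) ℚ K)
    (V : (Σ k, Fin (g k)) → Finset (Fin d)) (W : Fin n → Finset (Fin d)) (ρ : Fin n → ℕ)
    (b : Fin n → ℕ → MvPolynomial (Fin d) Ω)
    (I : Finset ((Σ k, Fin (g k)) × ((Fin d ⊕ Fin n) →₀ ℕ))),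
    (∀ i, (i, 0) ∈ I ∧ ∀ j ∈ V i, (i, Finsupp.single (Sum.inl j) (D i)) ∈ I) →
    (∀ u ∈ I, u.2.degree ≤ D u.1 ∧ ∀ t ∈ u.2.support, Al W (V u.1) t) →
    (∀ j l, l < ρ j → (b j l).totalDegree ≤ ρ j - l ∧ (b j l).vars ⊆ W j) →
    ∀ Δ : ℕ, 0 < Δ →
  ∃ C p0 : ℕ, ∀ p : ℕ, p0 ≤ p → p.Prime →
    ∃ Bp : Finset ({u // u ∈ I} → Fin (Module.finrank ℚ K) → ZMod p),
      Bp.card * p ≤ C * p ^ (Module.finrank ℚ K * Fintype.card {u // u ∈ I}) ∧
      ∀ (β : ℕ) (a : {u // u ∈ I} → Fin (Module.finrank ℚ K) → ℤ), 0 < β → p ∣ β →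
        ∀ (A B : Fin m → MvPolynomial (Fin d ⊕ Fin n) Ω)
          (F : (Σ k, Fin (g k)) → MvPolynomial (Fin d ⊕ Fin n) Ω),
        Adm3 Δ w D V W A B F →
        BadQ ρ b A B (fpol I F fun u => algebraMap K Ω (∑ l, (a u l : ℚ) • om l) / (β : Ω)) →
        (fun u l => (a u l : ZMod p)) ∈ Bp

namespace CRQ_

/-- the pivot monomial does not vanish -/
theorem pv_ne' {k : Type} [Field k] {d n D : ℕ} (W : Fin n → Finset (Fin d))
    (T : Typ d) (hT : Tok T) (V : Finset (Fin d)) (x : Fin d → k) (s : Fin n → k)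
    (hx : ∀ V Y m, T V = some Y → m ∈ Y → x m ≠ 0) :
    eval (Sum.elim x s) (utf k W T V D (pvf n D T V)) ≠ 0 := by
  classical
  unfold utf pvf
  cases hTV : T V with
  | none =>
    simp only
    simp
  | some Y =>
    have h1 := hT V Y hTV
    simp only
    rw [dif_pos h1.1]
    have hm := h1.1.choose_spec
    set m := h1.1.choose with hmdef
    have hx0 := hx V Y m hTV hm
    rw [if_pos]
    · rw [eval_monomial, one_mul, Finsupp.prod_single_index]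
      · exact pow_ne_zero _ hx0
      · exact pow_zero _
    · constructor
      · rw [Finsupp.degree_single]
      · intro t ht
        have ht' := Finsupp.support_single_subset ht
        rw [Finset.mem_singleton] at ht'
        rw [ht']
        exact hm

/-- the eliminants -/
theorem elimT (hELI : T_ELQ3) (hDEG : PKS.T_DEG) (d n : ℕ) (ι : Type) [Fintype ι] [DecidableEq ι]
    (D : ι → ℕ) (ρ : Fin n → ℕ)
    (W : Fin n → Finset (Fin d)) (V : ι → Finset (Fin d))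
    (I : Finset (ι × ((Fin d ⊕ Fin n) →₀ ℕ)))
    (hI : ∀ i, (i, 0) ∈ I ∧ ∀ j ∈ V i, (i, Finsupp.single (Sum.inl j) (D i)) ∈ I)
    (hId : ∀ u ∈ I, u.2.degree ≤ D u.1) (Q : Finset (Fin d)) :
    ∃ M : ℕ, ∀ (Ω k : Type) [Field Ω] [Field k] (r : Ω → k)
    (b : Fin n → ℕ → MvPolynomial (Fin d) Ω),
    (∀ j l, l < ρ j → (b j l).totalDegree ≤ ρ j - l) →
    ∀ (S J : Finset ι) (τ : ι → ι → k),
    ∃ Ψ : MvPolynomial {u // u ∈ I} k, Ψ ≠ 0 ∧ Ψ.totalDegree ≤ M ∧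
      (Disjoint S J → d + 1 ≤ S.card + J.card + Q.card → ∀ (T : Typ d), Tok T →
        ∀ (c : {u // u ∈ I} → k) (x : Fin d → k) (s : Fin n → k) (h : ι → k),
        OnBase ρ (bt r ρ b W T) x s → (∀ V Y m, T V = some Y → m ∈ Y → x m ≠ 0) →
        (∀ m ∈ Q, x m = 0) →
        (∀ i ∈ S, ∑ u : {u // u ∈ I}, (if u.1.1 = i then
          c u * eval (Sum.elim x s) (utf k W T (V u.1.1) (D u.1.1) u.1.2) else 0) = 0) →
        (∀ i, i ∉ S → h i ^ 2 * ∑ u : {u // u ∈ I}, (if u.1.1 = i then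
          c u * eval (Sum.elim x s) (utf k W T (V u.1.1) (D u.1.1) u.1.2) else 0) = 1) →
        (∀ j ∈ J, h j = ∑ i ∈ (S ∪ J)ᶜ, τ j i * h i) → eval c Ψ = 0) := by
  classical
  set Dm : ℕ := ∑ i, D i with hDm
  have hDm' : ∀ i, D i ≤ Dm := fun i => Finset.single_le_sum (f := D) (fun _ _ => Nat.zero_le _)
    (Finset.mem_univ i)
  have hL : ∀ T : Typ d, ∃ L : ℕ, ∀ hT : Tok T, ∀ (k : Type) [Field k]
    (b : Fin n → ℕ → MvPolynomial (Fin d) k)
    (u : {u // u ∈ I} → MvPolynomial (Fin d ⊕ Fin n) k) (S J : Finset ι)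
    (τ : ι → ι → k),
    (∀ j l, l < ρ j → (b j l).totalDegree ≤ ρ j - l) → (∀ α, (u α).totalDegree ≤ Dm) →
    Disjoint S J → d + 1 ≤ S.card + J.card + Q.card →
    ∃ Φ : MvPolynomial {u // u ∈ I} k, Φ ≠ 0 ∧ Φ.totalDegree ≤ L ∧
      ∀ c p s h, Sys3 ρ b (fun u : {u // u ∈ I} => u.1.1) u
        (fun i => ⟨(i, pvf n (D i) T (V i)), pv_mem D V I hI T hT i⟩) S J τ c p s h →
          (∀ m ∈ Q, p m = 0) → eval c Φ = 0 := by
    intro T
    by_cases hT : Tok T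
    · obtain ⟨L, hL⟩ := hELI d n Dm ρ ι {u // u ∈ I} (fun u => u.1.1)
        (fun i => ⟨(i, pvf n (D i) T (V i)), pv_mem D V I hI T hT i⟩) (fun i => rfl) Q
      exact ⟨L, fun _ => hL⟩
    · exact ⟨0, fun h => absurd h hT⟩
  choose L hL using hL
  refine ⟨∑ T, L T, fun Ω k _ _ r b hb S J τ => ?_⟩
  by_cases hcond : Disjoint S J ∧ d + 1 ≤ S.card + J.card + Q.card
  · obtain ⟨h1, h2⟩ := hcond
    have hex : ∀ T : Typ d, ∃ Φ : MvPolynomial {u // u ∈ I} k, Φ ≠ 0 ∧ Φ.totalDegree ≤ L T ∧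
        ∀ hT : Tok T, ∀ c p s h, Sys3 ρ (bt r ρ b W T) (fun u : {u // u ∈ I} => u.1.1)
          (fun u : {u // u ∈ I} => utf k W T (V u.1.1) (D u.1.1) u.1.2)
          (fun i => ⟨(i, pvf n (D i) T (V i)), pv_mem D V I hI T hT i⟩) S J τ c p s h →
            (∀ m ∈ Q, p m = 0) → eval c Φ = 0 := by
      intro T
      by_cases hT : Tok T
      · obtain ⟨hd1, -⟩ := hDEG Ω k r d n 0 W ρ b T hb
        obtain ⟨Φ, hΦ⟩ := hL T hT k (bt r ρ b W T)
          (fun u : {u // u ∈ I} => utf k W T (V u.1.1) (D u.1.1) u.1.2) S J τ hd1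
          (fun u => utf_deg k W T (V u.1.1) (D u.1.1) Dm u.1.2
            ((hId u.1 u.2).trans (hDm' _))) h1 h2
        exact ⟨Φ, hΦ.1, hΦ.2.1, fun _ => hΦ.2.2⟩
      · exact ⟨1, one_ne_zero, by simp, fun h => absurd h hT⟩
    choose Φ hΦ0 hΦd hΦ using hex
    refine ⟨∏ T, Φ T, Finset.prod_ne_zero_iff.2 fun T _ => hΦ0 T, ?_, ?_⟩
    · refine (totalDegree_finsetProd _ _).trans ?_
      exact Finset.sum_le_sum fun T _ => hΦd T
    · intro _ _ T hT c x s h hbase hx hxQ hS hW hJ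
      rw [map_prod]
      refine Finset.prod_eq_zero (Finset.mem_univ T) (hΦ T hT c x s h
        ⟨hbase, fun i => pv_ne' W T hT (V i) x s hx, hS, hW, hJ⟩ hxQ)
  · exact ⟨1, one_ne_zero, by simp, fun h1 h2 => absurd ⟨h1, h2⟩ hcond⟩

theorem core (hREL : PKS.T_REL2) (hWPV : PKS.T_WPV) (hVAL : PKS.T_VAL) (hBSE : T_BSQ)
    (hPLT : PKS.T_PLT) (hSEC : T_SEC) (hSIZ : PKS.T_SIZ) (hDAT : T_DAT2) (hELI : T_ELQ3)
    (hDEG : PKS.T_DEG) (hCNT : PKD.T_CNT) (hEXP : PKD.T_EXP) (hALM : PKD.T_ALM) (K Ω : Type)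
    [Field K] [NumberField K] [Field Ω] [CharZero Ω] [IsAlgClosed Ω] [DecidableEq Ω] [Algebra K Ω]
    [Algebra.IsAlgebraic K Ω] (m : ℕ) (g : Fin m → ℕ) (d n N : ℕ) (w : Fin m → ℕ)
    (D : (Σ k, Fin (g k)) → ℕ) (hD : ∀ i, w i.1 ≤ D i) (hK : PKE.DegC g d N)
    (om : Module.Basis (Fin N) ℚ K) (σ : Fin N → Ω →+* Ω)
    (hσ : (Matrix.of fun (j l : Fin N) => σ j (algebraMap K Ω (om l))).det ≠ 0)
    (V : (Σ k, Fin (g k)) → Finset (Fin d)) (W : Fin n → Finset (Fin d)) (ρ : Fin n → ℕ)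
    (b : Fin n → ℕ → MvPolynomial (Fin d) Ω)
    (I : Finset ((Σ k, Fin (g k)) × ((Fin d ⊕ Fin n) →₀ ℕ)))
    (hI : ∀ i, (i, 0) ∈ I ∧ ∀ j ∈ V i, (i, Finsupp.single (Sum.inl j) (D i)) ∈ I)
    (hIs : ∀ u ∈ I, u.2.degree ≤ D u.1 ∧ ∀ t ∈ u.2.support, Al W (V u.1) t)
    (hb : ∀ j l, l < ρ j → (b j l).totalDegree ≤ ρ j - l ∧ (b j l).vars ⊆ W j)
    (Δ : ℕ) (hΔ : 0 < Δ) :
    ∃ C p0 : ℕ, ∀ p : ℕ, p0 ≤ p → p.Prime →
    ∃ Bp : Finset ({u // u ∈ I} → Fin N → ZMod p),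
      Bp.card * p ≤ C * p ^ (N * Fintype.card {u // u ∈ I}) ∧
      ∀ (β : ℕ) (a : {u // u ∈ I} → Fin N → ℤ), 0 < β → p ∣ β →
        ∀ (A B : Fin m → MvPolynomial (Fin d ⊕ Fin n) Ω)
          (F : (Σ k, Fin (g k)) → MvPolynomial (Fin d ⊕ Fin n) Ω),
        Adm3 Δ w D V W A B F →
        BadQ ρ b A B (fpol I F fun u => algebraMap K Ω (∑ l, (a u l : ℚ) • om l) / (β : Ω)) →
        (fun u l => (a u l : ZMod p)) ∈ Bp := by
  classical
  have halg : Algebra.IsAlgebraic ℚ Ω := Algebra.IsAlgebraic.trans ℚ K Ω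
  choose MQ hMQ using fun Q => elimT hELI hDEG d n (Σ k, Fin (g k)) D ρ W V I hI
    (fun u hu => (hIs u hu).1) Q
  set M : ℕ := ∑ Q, MQ Q with hMdef
  have hMle : ∀ Q, MQ Q ≤ M := fun Q =>
    Finset.single_le_sum (f := MQ) (fun _ _ => Nat.zero_le _) (Finset.mem_univ Q)
  choose Cd hCd using fun (k : Fin m) (e : ℕ) => hDAT (g k) e
  set Mt : Matrix (Fin N) (Fin N) Ω := Matrix.of fun j l => σ j (algebraMap K Ω (om l)) with hMt
  have hdet : Mt.det ≠ 0 := hσ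
  -- the finite set of numbers which have to be integral
  let Fs : Finset Ω :=
    (Finset.univ.image fun x : Fin N × Fin N => Mt x.1 x.2) ∪ {Mt.det⁻¹} ∪
    (Finset.univ.biUnion fun i : Fin N => Finset.univ.biUnion fun j : Fin n =>
      (Finset.range (ρ j)).biUnion fun l => (b j l).support.image fun t => σ i ((b j l).coeff t))
  obtain ⟨p1, hp1⟩ := PKD.COR_.alm_finset hALM Ω Fs
  -- the vectors of codimensions
  let Es : Finset (Fin m → ℕ) :=
    (Fintype.piFinset fun k => Finset.range (g k + 1)).filter fun e => ∑ k, e k ≤ d + 1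
  -- the number of the discrete data
  let X0 : Type := Finset (Fin d) × (Fin N → (Fin m → Bool) × Bool × Finset (Σ k, Fin (g k)) ×
    Finset (Σ k, Fin (g k)) × Finset ((Σ k, Fin (g k)) × (Σ k, Fin (g k))))
  set C1 : ℕ := Fintype.card X0 * ∑ e ∈ Es, ∏ k, Cd k (e k) with hC1
  refine ⟨C1 * M ^ N, p1 + Δ + 1 + N * M + 5, fun p hp hpp => ?_⟩
  obtain ⟨v, kk, _, hchar, r, hr, hvp⟩ := hEXP Ω p hpp
  haveI : Fact p.Prime := ⟨hpp⟩
  -- a square root of `p`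
  obtain ⟨sp, hsp⟩ := IsAlgClosed.exists_pow_nat_eq (p : Ω) (n := 2) (by norm_num)
  choose Ds hDsc hDs using fun (k : Fin m) (e : ℕ) => hCd k e kk p hpp (by omega) hchar
  have hFs := hp1 p (by omega) hpp v hr.na hvp
  have hMi : ∀ i j, v (Mt i j) ≤ 1 := fun i j => hFs _ (by
    simp only [Fs, Finset.mem_union, Finset.mem_image]
    exact Or.inl (Or.inl ⟨(i, j), Finset.mem_univ _, rfl⟩))
  have hdi : v (Mt.det⁻¹) ≤ 1 := hFs _ (by
    simp only [Fs, Finset.mem_union, Finset.mem_singleton]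
    exact Or.inl (Or.inr trivial))
  have hbi : ∀ i j l, l < ρ j → ∀ t, v (σ i ((b j l).coeff t)) ≤ 1 := by
    intro i j l hl t
    by_cases ht : t ∈ (b j l).support
    · refine hFs _ ?_
      simp only [Fs, Finset.mem_union]
      refine Or.inr ?_
      simp only [Finset.mem_biUnion, Finset.mem_image, Finset.mem_univ, true_and, Finset.mem_range]
      exact ⟨i, j, l, hl, t, ht, rfl⟩
    · rw [notMem_support_iff.1 ht, map_zero, v.map_zero]
      exact zero_le_one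
  -- the reduced matrix
  set Θ : Matrix (Fin N) (Fin N) kk := Matrix.of fun i j => r (Mt i j) with hΘ
  have hΘdet : Θ.det ≠ 0 := by
    obtain ⟨h1, h2⟩ := PKD.COR_.red_det hr Mt hMi
    rw [← h2]
    intro h0
    rw [hr.ker _ h1] at h0
    rw [map_inv₀] at hdi
    have hpos : 0 < v Mt.det := v.pos hdet
    have := (inv_le_one₀ hpos).1 hdi
    linarith
  -- the eliminants
  have hΨex : ∀ (j : Fin N) (Q : Finset (Fin d)) (S J : Finset (Σ k, Fin (g k)))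
      (τ : (Σ k, Fin (g k)) → (Σ k, Fin (g k)) → kk),
      ∃ Ψ : MvPolynomial {u // u ∈ I} kk, Ψ ≠ 0 ∧ Ψ.totalDegree ≤ M ∧
      (Disjoint S J → d + 1 ≤ S.card + J.card + Q.card → ∀ (T : Typ d), Tok T →
        ∀ (c : {u // u ∈ I} → kk) (x : Fin d → kk) (s : Fin n → kk) (h : (Σ k, Fin (g k)) → kk),
        OnBase ρ (bt (fun x => r (σ j x)) ρ b W T) x s →
        (∀ V Y m, T V = some Y → m ∈ Y → x m ≠ 0) → (∀ m ∈ Q, x m = 0) →
        (∀ i ∈ S, ∑ u : {u // u ∈ I}, (if u.1.1 = i then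
          c u * eval (Sum.elim x s) (utf kk W T (V u.1.1) (D u.1.1) u.1.2) else 0) = 0) →
        (∀ i, i ∉ S → h i ^ 2 * ∑ u : {u // u ∈ I}, (if u.1.1 = i then
          c u * eval (Sum.elim x s) (utf kk W T (V u.1.1) (D u.1.1) u.1.2) else 0) = 1) →
        (∀ j ∈ J, h j = ∑ i ∈ (S ∪ J)ᶜ, τ j i * h i) → eval c Ψ = 0) := fun j Q S J τ => by
    obtain ⟨Ψ, h1, h2, h3⟩ := hMQ Q Ω kk (fun x => r (σ j x)) b (fun j l hl => (hb j l hl).1) S J τ
    exact ⟨Ψ, h1, h2.trans (hMle Q), h3⟩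
  choose Ψ hΨ0 hΨd hΨ using hΨex
  -- the configurations
  let Xs : Finset (X0 × ((k : Fin m) → Bool → Bool → Dt (g k) kk)) :=
    Es.biUnion fun e => (Finset.univ : Finset X0) ×ˢ Fintype.piFinset fun k => Ds k (e k)
  have hXs : Xs.card * p ≤ C1 * p ^ N := by
    have h1 : Xs.card ≤ ∑ e ∈ Es, Fintype.card X0 * ∏ k, (Ds k (e k)).card := by
      refine Finset.card_biUnion_le.trans (Finset.sum_le_sum fun e _ => ?_)
      rw [Finset.card_product, Fintype.card_piFinset, Finset.card_univ]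
    have h2 : ∀ e ∈ Es, (∏ k, (Ds k (e k)).card) * p ≤ (∏ k, Cd k (e k)) * p ^ N := by
      intro e he
      simp only [Es, Finset.mem_filter, Fintype.mem_piFinset, Finset.mem_range] at he
      have h3 := hK e (fun k => Nat.lt_succ_iff.1 (he.1 k)) he.2
      calc (∏ k, (Ds k (e k)).card) * p
          ≤ (∏ k, Cd k (e k) * p ^ (2 * (e k * (g k - e k)))) * p := by
            gcongr with k _
            exact hDsc k (e k)
        _ = (∏ k, Cd k (e k)) * p ^ (2 * ∑ k, e k * (g k - e k) + 1) := by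
            rw [Finset.prod_mul_distrib, Finset.prod_pow_eq_pow_sum, ← Finset.mul_sum, pow_succ]
            ring
        _ ≤ (∏ k, Cd k (e k)) * p ^ N := by
            gcongr
            · exact hpp.one_le
            · omega
    calc Xs.card * p ≤ (∑ e ∈ Es, Fintype.card X0 * ∏ k, (Ds k (e k)).card) * p :=
          Nat.mul_le_mul_right _ h1
      _ = Fintype.card X0 * ∑ e ∈ Es, (∏ k, (Ds k (e k)).card) * p := by
          rw [Finset.sum_mul, Finset.mul_sum]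
          exact Finset.sum_congr rfl fun e _ => by ring
      _ ≤ Fintype.card X0 * ∑ e ∈ Es, (∏ k, Cd k (e k)) * p ^ N :=
          Nat.mul_le_mul_left _ (Finset.sum_le_sum h2)
      _ = C1 * p ^ N := by
          rw [hC1, ← Finset.sum_mul]
          ring
  obtain ⟨Bp, hBc, hBp⟩ := PKE.CRE_.union hCNT p Θ hΘdet M C1 (by omega) Xs hXs
    (fun j x => Ψ j x.1.1 (x.1.2 j).2.2.1 (x.1.2 j).2.2.2.1
      (flat2 x.2 (x.1.2 j).1 (x.1.2 j).2.1 (x.1.2 j).2.2.1 (x.1.2 j).2.2.2.1 (x.1.2 j).2.2.2.2))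
    (fun j x => ⟨hΨ0 _ _ _ _ _, hΨd _ _ _ _ _⟩)
  refine ⟨Bp, hBc, fun β a hβpos hβ A B F hadm hbad => ?_⟩
  obtain ⟨hA, hB, hF, hABs, hFSI⟩ := hadm
  have hSIv : ∀ i x, PKE.SI Δ x → v (σ i x) ≤ 1 := fun i x hx =>
    PKE.CR2_.na_SI hr.na hpp hvp hΔ (by omega) _ (PKE.CR2_.SI_map hx (σ i))
  have hABi : ∀ i κ t, v (σ i ((A κ).coeff t)) ≤ 1 ∧ v (σ i ((B κ).coeff t)) ≤ 1 := fun i κ t =>
    ⟨hSIv i _ (hABs κ t).1, hSIv i _ (hABs κ t).2⟩
  have hβ0 : (β : Ω) ≠ 0 := Nat.cast_ne_zero.2 hβpos.ne'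
  have hvβ : v (β : Ω) ≤ v (p : Ω) := by
    obtain ⟨q, rfl⟩ := hβ
    push_cast
    rw [v.map_mul]
    calc v (p : Ω) * v (q : Ω) ≤ v (p : Ω) * 1 :=
          mul_le_mul_of_nonneg_left (na_nat hr.na _) (v.nonneg _)
      _ = v (p : Ω) := mul_one _
  set c : {u // u ∈ I} → Ω :=
    fun u => algebraMap K Ω (∑ l, (a u l : ℚ) • om l) / (β : Ω) with hc
  have hβc : ∀ i u, σ i ((β : Ω) * c u) = ∑ l, ((a u l : ℤ) : Ω) * Mt i l := by
    intro i u
    have h1 : (β : Ω) * c u = algebraMap K Ω (∑ l, (a u l : ℚ) • om l) := by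
      rw [hc]
      field_simp
    rw [h1, map_sum, map_sum]
    refine Finset.sum_congr rfl fun l _ => ?_
    have h2 : ((a u l : ℚ) • om l : K) = ((a u l : ℤ) : K) * om l := by
      rw [Algebra.smul_def]
      simp
    rw [h2, map_mul, map_mul, map_intCast, map_intCast]
    rfl
  have hci : ∀ i u, v (σ i ((β : Ω) * c u)) ≤ 1 := by
    intro i u
    rw [hβc]
    refine na_sum hr.na _ _ _ zero_le_one fun l _ => ?_
    rw [v.map_mul]
    exact mul_le_one₀ (na_int hr.na _) (v.nonneg _) (hMi _ _)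
  have hcr : ∀ i u, r (σ i ((β : Ω) * c u)) =
      ∑ l, Θ i l * ZMod.castHom (dvd_refl p) kk ((a u l : ZMod p)) := by
    intro i u
    rw [hβc, hr.sum _ _ fun l _ => by
      rw [v.map_mul]
      exact mul_le_one₀ (na_int hr.na _) (v.nonneg _) (hMi _ _)]
    refine Finset.sum_congr rfl fun l _ => ?_
    rw [hr.mul _ _ (na_int hr.na _) (hMi _ _), hr.int, mul_comm]
    congr 1
    simp
  -- the fixed part
  have hβF : ∀ j i α, v (σ j ((β : Ω) * (F i).coeff α)) < 1 := by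
    intro j i α
    rw [map_mul, v.map_mul, map_natCast]
    calc v (β : Ω) * v (σ j ((F i).coeff α)) ≤ v (p : Ω) * 1 :=
          mul_le_mul hvβ (hSIv j _ (hFSI i α)) (v.nonneg _) (v.nonneg _)
      _ < 1 := by rw [mul_one]; exact hvp
  have hFr : ∀ j i α, r (σ j ((β : Ω) * (F i).coeff α)) = 0 := fun j i α =>
    (hr.ker _ (hβF j i α).le).2 (hβF j i α)
  have hcf : ∀ j i α, v (σ j ((β : Ω) * (fpol I F c i).coeff α)) ≤ 1 ∧
      r (σ j ((β : Ω) * (fpol I F c i).coeff α)) =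
        if h : (i, α) ∈ I then r (σ j ((β : Ω) * c ⟨(i, α), h⟩)) else 0 := by
    intro j i α
    rw [fpol_coeff, mul_add, map_add]
    by_cases h : (i, α) ∈ I
    · rw [dif_pos h, dif_pos h]
      refine ⟨(hr.na _ _).trans (max_le (hβF j i α).le (hci j _)), ?_⟩
      rw [hr.add _ _ (hβF j i α).le (hci j _), hFr, zero_add]
    · rw [dif_neg h, dif_neg h, mul_zero, map_zero, add_zero]
      exact ⟨(hβF j i α).le, hFr j i α⟩
  -- degrees and supports
  have hcs : ∀ i, (fpol I F c i).totalDegree ≤ D i ∧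
      ∀ t ∈ (fpol I F c i).vars, Al W (V i) t := by
    intro i
    have h1 : ∀ α ∈ (fpol I F c i).support, α ∈ (F i).support ∨ (i, α) ∈ I := by
      intro α hα
      rw [mem_support_iff, fpol_coeff] at hα
      by_cases h : (i, α) ∈ I
      · exact Or.inr h
      · rw [dif_neg h, add_zero] at hα
        exact Or.inl (mem_support_iff.2 hα)
    constructor
    · rw [totalDegree, Finset.sup_le_iff]
      intro α hα
      rcases h1 α hα with h2 | h2
      · exact (le_totalDegree h2).trans (hF i).1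
      · exact (hIs _ h2).1
    · intro t ht
      rw [mem_vars] at ht
      obtain ⟨α, hα, ht⟩ := ht
      rcases h1 α hα with h2 | h2
      · exact (hF i).2 t ((mem_vars t).2 ⟨α, h2, ht⟩)
      · exact (hIs _ h2).2 t ht
  obtain ⟨Q, e, De, heg, he, hDe, hsys⟩ :=
    stpQ hREL hWPV hVAL hBSE hPLT hSEC hSIZ hr hpp (by omega) hvp hsp w D hD σ Ds
      (fun k e a t n' ha U hU => hDs k e Ω v r hr hvp a sp t n' ha hsp U hU) V W ρ b A B hb hbi hA hB
      hABi (β : Ω) (fpol I F c) hβ0 (fun i => by rw [map_natCast]; exact hvβ) hcs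
      (fun j i α => (hcf j i α).1) hbad
  choose cl cs S J Z hSJ hdim T x' s' h hTok hbase hx' hxQ hS hW hJ using hsys
  have hsum : ∀ j i, ∑ α ∈ (fpol I F c i).support, r (σ j ((β : Ω) * (fpol I F c i).coeff α)) *
      eval (Sum.elim (x' j) (s' j)) (utf kk W (T j) (V i) (D i) α) =
      ∑ u : {u // u ∈ I}, (if u.1.1 = i then r (σ j ((β : Ω) * c u)) *
        eval (Sum.elim (x' j) (s' j)) (utf kk W (T j) (V u.1.1) (D u.1.1) u.1.2) else 0) := by
    intro j i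
    rw [sum_supp I i (fpol I F c i) (fun α => r (σ j ((β : Ω) * (fpol I F c i).coeff α)))
      (fun α => eval (Sum.elim (x' j) (s' j)) (utf kk W (T j) (V i) (D i) α))
      (fun u => r (σ j ((β : Ω) * c u))) ?_ ?_ ?_]
    · refine Finset.sum_congr rfl fun u _ => ?_
      by_cases h1 : u.1.1 = i
      · rw [if_pos h1, if_pos h1, h1]
      · rw [if_neg h1, if_neg h1]
    · rintro ⟨⟨i', α⟩, hu⟩ h1
      simp only at h1
      subst h1
      show r (σ j ((β : Ω) * (fpol I F c i').coeff α)) = _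
      rw [(hcf j i' α).2, dif_pos hu]
    · intro α hα
      show r (σ j ((β : Ω) * (fpol I F c i).coeff α)) = 0
      rw [(hcf j i α).2, dif_neg hα]
    · intro α hα
      show r (σ j ((β : Ω) * (fpol I F c i).coeff α)) = 0
      rw [notMem_support_iff.1 hα, mul_zero, map_zero, hr.zero]
  refine hBp _ ⟨((Q, fun j => (cl j, cs j, S j, J j, Z j)), De), ?_, fun j => ?_⟩
  · simp only [Xs, Es, Finset.mem_biUnion, Finset.mem_filter, Fintype.mem_piFinset,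
      Finset.mem_range, Finset.mem_product, Finset.mem_univ, true_and]
    exact ⟨e, ⟨fun k => Nat.lt_succ_of_le (heg k), by omega⟩, hDe⟩
  have h1 := hΨ j Q (S j) (J j) (flat2 De (cl j) (cs j) (S j) (J j) (Z j)) (hSJ j) (hdim j) (T j)
    (hTok j) (fun u => r (σ j ((β : Ω) * c u))) (x' j) (s' j) (h j) (hbase j) (hx' j) (hxQ j)
    (fun i hi => by rw [← hsum j i]; exact hS j i hi)
    (fun i hi => by rw [← hsum j i]; exact hW j i hi) (hJ j)
  rw [← h1]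
  congr 1
  congr 1
  funext u
  exact (hcr j u).symm

end CRQ_

theorem p_CRQ (hREL : PKS.T_REL2) (hWPV : PKS.T_WPV) (hVAL : PKS.T_VAL) (hBSE : T_BSQ)
    (hPLT : PKS.T_PLT) (hSEC : T_SEC) (hSIZ : PKS.T_SIZ) (hDAT : T_DAT2) (hELI : T_ELQ3)
    (hDEG : PKS.T_DEG) (hCNT : PKD.T_CNT) (hEXP : PKD.T_EXP) (hALM : PKD.T_ALM)
    (hEMB : PKD.T_EMB) : T_CRQ := by
  intro K Ω _ _ _ _ _ _ _ _ m g d n w D hD hK om V W ρ b I hI hIs hb Δ hΔ
  obtain ⟨σ, hσ⟩ := hEMB K Ω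
  exact CRQ_.core hREL hWPV hVAL hBSE hPLT hSEC hSIZ hDAT hELI hDEG hCNT hEXP hALM K Ω m g d n _ w D
    hD hK om σ (hσ om) V W ρ b I hI hIs hb Δ hΔ

end PKQ
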