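import Pool.Agent.PKT.All
import Pool.Agent.PKQ.BSQ
import Pool.Agent.PKQ.ELQ3
import Pool.Agent.PKQ.FIQ

/-! Assembly of project PKQ. -/

set_option autoImplicit false

namespace PKQ

theorem all_BSQ : T_BSQ := p_BSQ (p_BSE4 PKS.p_SIZ)
theorem all_ELQ3 : T_ELQ3 := p_ELQ3 PKT.all_ELI3
theorem all_CRQ : T_CRQ :=
  p_CRQ PKS.all_REL2 PKS.p_WPV PKS.p_VAL all_BSQ PKS.p_PLT PKT.p_SEC PKS.p_SIZ PKT.all_DAT2
    all_ELQ3 PKS.p_DEG PKD.p_CNT PKD.p_EXP PKD.p_ALM PKD.p_EMB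
theorem all_FIQ : T_FIQ := p_FIQ all_CRQ PKE.all_SV3

end PKQ
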